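import Pool.Agent.H58.FL.TargetsD

/-!
# GE2: clusters at all levels above the level of `rad 2`
-/

set_option autoImplicit false

namespace Pool.Agent.H48.FLD

open Pool.Agent.H58.FL Pool.Agent.H59 Pool.Agent.H48.FR

theorem pf_GE2 (hMN4 : T_MN4) (hR5 : T_R5) (hSX : T_SX) (hCL6 : T_CL6) : T_GE2 := by
  intro κ hκ E _ _ S hS1 hS2 hex
  have hAd : ∀ x ∈ S, ∀ y ∈ S, Ad x y := fun x hx y hy => lt_of_lt_of_le hκ (hS2 x hx y hy)
  have hCl4 : ∀ x ∈ S, ∀ y ∈ S, ∀ z ∈ S, ∀ w ∈ S, Cl ![x, y, z, w] := by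
    intro x hx y hy z hz w hw
    have hmem : ∀ i : Fin 4, (![x, y, z, w] : Fin 4 → E) i ∈ S := by
      intro i
      fin_cases i
      · exact hx
      · exact hy
      · exact hz
      · exact hw
    exact ⟨fun i => hS1 _ (hmem i), fun i j => hAd _ (hmem i) _ (hmem j)⟩
  have hCl5 : ∀ x ∈ S, ∀ y ∈ S, ∀ z ∈ S, ∀ w ∈ S, ∀ v ∈ S, Cl ![x, y, z, w, v] := by
    intro x hx y hy z hz w hw v hv
    have hmem : ∀ i : Fin 5, (![x, y, z, w, v] : Fin 5 → E) i ∈ S := by
      intro i
      fin_cases i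
      · exact hx
      · exact hy
      · exact hz
      · exact hw
      · exact hv
    exact ⟨fun i => hS1 _ (hmem i), fun i j => hAd _ (hmem i) _ (hmem j)⟩
  have hCl6 : ∀ v ∈ S, ∀ w ∈ S, ∀ a ∈ S, ∀ b ∈ S, ∀ c ∈ S, ∀ z ∈ S, Cl ![v, w, a, b, c, z] := by
    intro v hv w hw a ha b hb c hc z hz
    have hmem : ∀ i : Fin 6, (![v, w, a, b, c, z] : Fin 6 → E) i ∈ S := by
      intro i
      fin_cases i
      · exact hv
      · exact hw
      · exact ha
      · exact hb
      · exact hc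
      · exact hz
    exact ⟨fun i => hS1 _ (hmem i), fun i j => hAd _ (hmem i) _ (hmem j)⟩
  have h4 : ∀ x ∈ S, ∀ y ∈ S, ∀ z ∈ S, ∀ w ∈ S,
      (mn x y z w = 0 ∨ mn x y z w = 1 ∨ mn x y z w = -1) ∧ mn y x z w = -mn x y z w ∧
        mn x z y w = -mn x y z w ∧ mn x y w z = -mn x y z w :=
    fun x hx y hy z hz w hw => (hMN4 E).2.1 ![x, y, z, w] (hCl4 x hx y hy z hz w hw)
  have hcast : ∀ x ∈ S, ∀ y ∈ S, ∀ z ∈ S, ∀ w ∈ S,
      ((round (mn x y z w) : ℤ) : ℝ) = mn x y z w := by
    intro x hx y hy z hz w hw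
    rcases (h4 x hx y hy z hz w hw).1 with h | h | h
    · rw [h, round_zero, Int.cast_zero]
    · rw [h, round_one, Int.cast_one]
    · rw [h]
      have h1 : round (-1 : ℝ) = -1 := by
        have h2 := round_intCast (α := ℝ) (-1)
        rw [Int.cast_neg, Int.cast_one] at h2
        exact h2
      rw [h1, Int.cast_neg, Int.cast_one]
  have hz : ∀ x ∈ S, ∀ y ∈ S, ∀ z ∈ S, ∀ w ∈ S,
      (round (mn x y z w) = 0 ↔ mn x y z w = 0) := by
    intro x hx y hy z hz w hw
    rw [← hcast x hx y hy z hz w hw, Int.cast_eq_zero, round_intCast]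
  obtain ⟨c, hc⟩ := hCL6 E S (fun x y z w => round (mn x y z w)) (by
      intro x hx y hy z hz w hw
      have h := h4 x hx y hy z hz w hw
      refine ⟨?_, ?_, ?_, ?_⟩
      · have h1 := h.2.1
        rw [← hcast y hy x hx z hz w hw, ← hcast x hx y hy z hz w hw] at h1
        exact_mod_cast h1
      · have h1 := h.2.2.1
        rw [← hcast x hx z hz y hy w hw, ← hcast x hx y hy z hz w hw] at h1
        exact_mod_cast h1
      · have h1 := h.2.2.2
        rw [← hcast x hx y hy w hw z hz, ← hcast x hx y hy z hz w hw] at h1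
        exact_mod_cast h1
      · show |round (mn x y z w)| ≤ 1
        have h1 := h.1
        rw [← hcast x hx y hy z hz w hw] at h1
        rcases h1 with h2 | h2 | h2
        · have h3 : round (mn x y z w) = 0 := by exact_mod_cast h2
          rw [h3]
          decide
        · have h3 : round (mn x y z w) = 1 := by exact_mod_cast h2
          rw [h3]
          decide
        · have h3 : round (mn x y z w) = -1 := by exact_mod_cast h2
          rw [h3]
          decide) (by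
      intro x hx y hy z hz w hw v hv
      have h1 := (hMN4 E).2.2 x y z w v
      rw [← hcast y hy z hz w hw v hv, ← hcast x hx z hz w hw v hv, ← hcast x hx y hy w hw v hv,
        ← hcast x hx y hy z hz v hv, ← hcast x hx y hy z hz w hw] at h1
      exact_mod_cast h1) (by
      intro x hx y hy z hz' w hw v hv hne
      have hne' : mn x y z w ≠ 0 := fun h => hne ((hz x hx y hy z hz' w hw).2 h)
      have h1 := hR5 E ![x, y, z, w, v] (hCl5 x hx y hy z hz' w hw v hv) hne'
      change (mn v y z w ≠ 0 ∧ mn x v z w = 0 ∧ mn x y v w = 0 ∧ mn x y z v = 0) ∨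
        (mn v y z w = 0 ∧ mn x v z w ≠ 0 ∧ mn x y v w = 0 ∧ mn x y z v = 0) ∨
        (mn v y z w = 0 ∧ mn x v z w = 0 ∧ mn x y v w ≠ 0 ∧ mn x y z v = 0) ∨
        (mn v y z w = 0 ∧ mn x v z w = 0 ∧ mn x y v w = 0 ∧ mn x y z v ≠ 0) at h1
      simp only [ne_eq, ← hz v hv y hy z hz' w hw, ← hz x hx v hv z hz' w hw,
        ← hz x hx y hy v hv w hw, ← hz x hx y hy z hz' v hv] at h1
      exact h1) (by
      intro v hv w hw a ha b hb c hc z hz' h1 h2
      have h1' : mn v a b c ≠ 0 := fun h => h1 ((hz v hv a ha b hb c hc).2 h)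
      have h2' : mn w a b c ≠ 0 := fun h => h2 ((hz w hw a ha b hb c hc).2 h)
      have h3 := hSX E ![v, w, a, b, c, z] (hCl6 v hv w hw a ha b hb c hc z hz') h1' h2'
      exact (hz v hv w hw a ha z hz').2 h3) (by
      obtain ⟨x, hx, y, hy, z, hz', w, hw, hne⟩ := hex
      exact ⟨x, hx, y, hy, z, hz', w, hw, fun h => hne ((hz x hx y hy z hz' w hw).1 h)⟩)
  refine ⟨c, fun x hx y hy z hz' w hw => ?_⟩
  rw [← hcast x hx y hy z hz' w hw]
  exact_mod_cast hc x hx y hy z hz' w hw

end Pool.Agent.H48.FLD
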